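import Pool.Agent.H76.GT.Fld
import Pool.Agent.H75.GR.Ring

/-!
# Linear groups of degree two over commutative rings and the Farrell-Jones conjecture for A-theory

Let `C` be a class of groups with the inheritance properties `Inherits` and the extension property `Extension`, which contains
the solvable groups and the groups `GL_n(ℚ)`, and to which the transfer criterion `Transfer` applies: if a finitely generated
group `G` acts on a compact contractible controlled `N`-dominated metric space `X` such that for every finite subset `S` of `G`
there is an open `G`-invariant cover of `G × X` of order at most `N + 1` with stabilisers in `C`, whose members are equal to or
disjoint from their translates, and such that every set `g S × {x}` is contained in a member, then `G` is in `C`. The class of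
the groups satisfying the Farrell-Jones conjecture for A-theory with coefficients and finite wreath products is such a class.
We prove that `C` contains `GL₂(A)` for every commutative ring `A`, so all subgroups of these groups, for example `SL₂(ℂ)`
as a discrete group.

Proof. (1) Products of trees (`H76/GU`). Let `G` be finitely generated and act on countable trees `T_1, .., T_n`, not necessarily
locally finite, with vertex stabilisers in `C`; the action is neither proper nor cocompact. `X` is the product of the
compactifications of the `T_k` by ends (with the observers' topology): a point `ψ` gives for every dart the position in `[0, 1]` of
its projection to the edge. Fix base points `o_k`, a finite symmetric set `S`, and finite subtrees `X_m ∋ o` with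
`S X_m ⊆ X_(m+1)`, of at most exponential size. The exit function is the distance from `g o` to the projection of `ψ` to `g X_m`.
Where for some `k` the exit from `g X_M` is less than `L`, `M ≥ 20 L`: the mean `θ` over `m < M` changes by less than
`1 / 20` (after the shift of the heights) from `g` to `g s`, so the point at distance `θ` on the path from `g o` to `ψ` in `T_k` is
almost the same for `g` and `g s`, and the vertices and edges of `T_k` give two families of open sets.
Where all exits are late: the paths from `g o_k` to `ψ_k` give `n` long geodesics in a translate of the finite sets `X_m`,
and the shifted ones for `g s`. Local rigidity (`H54/AX/Rig`): there are finitely many equivariant partial functions on the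
boxes of radius `r` (products of `n` paths) with values in `G`-sets with stabilisers in `C`, such that either one of them is
defined and constant at all positions near the given one, or no element of `G` translates the box of radius `r + R` by a
short vector. In the second case choose a net of such positions by a rule of radius much smaller than the length of the
paths: the labels of the positions are codes of the `G`-orbits of the boxes, with `C L` bits, two steps of Cole and Vishkin reduce
them to colours, and a greedy choice gives the net (`H65/NT/Net`). The objects are the boxes at the points of the net.

(2) Rigidity (`H76/GT/Pl*`, `Alg*`, `IndR`). Let `F` be a field with discrete valuations `v`, for every element only finitely many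
nonzero, `κ` the field of the elements with all valuations nonnegative, `G` a subgroup of `PGL₂(F)`, acting on the trees of
the finitely many `v` where it does not fix a vertex. If a subgroup `P` fixes vertices in all trees and an edge in one tree then the
linear span of its preimage is a proper subalgebra of `M₂(F)`: the traces of the commutators are in `κ`, and a trace form argument
shows that otherwise the edge is degenerate. So the ranks of the spans are at most three; the objects are the spans of
dimension two or three, whose normalisers are solvable, and the commutative algebras generated by the translations.

(3) Induction (`H76/GT/Base`, `Ind`). On the number of valuations without fixed vertex: vertex stabilisers are groups with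
fewer such valuations; finitely generated groups have only finitely many. Groups with a fixed vertex in every tree are solvable or
subgroups of `PGL₂` of an extension of `κ` of degree at most two (`H76/GT/Quat*`).

(4) Fields (`H76/GT/Ff*`, `Fld*`). Function fields of one variable over a field have such valuations, with `κ` algebraic over the
constants; induction on the transcendence degree. Prime fields: `GL_n(ℚ)` for number fields, finite fields.

(5) Rings (`H75/GR`). A finitely generated commutative ring modulo its nilradical is a subring of a finite product of fields.
-/

set_option autoImplicit false

namespace Pool.Agent.Results.MP_2a547c_gt.LinearDegreeTwo

open Pool.Agent.H98.FJ Pool.Agent.H76.GT

theorem result (C : (G : Type) → [Group G] → Prop) (hC : Inherits C) (hE : Extension C) (hT : Transfer C)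
    (hS : ∀ (G : Type) [Group G], Group.IsSolvable G → C G) (hQ : ∀ n : ℕ, C (Matrix.GeneralLinearGroup (Fin n) ℚ))
    (A : Type) [CommRing A] : C (Matrix.GeneralLinearGroup (Fin 2) A) :=
  Pool.Agent.H75.GR.ring_mem hC hE hS 2 (fun F _ => gl_field hC hE hT hS hQ F) A

end Pool.Agent.Results.MP_2a547c_gt.LinearDegreeTwo
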